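import Mathlib
import Pool.Agent.H572Z.Cl.Path

set_option autoImplicit false

/-- **Q2 holds, with `g = 7`.** For every `k` there is `c` such that every finite graph of girth at
least `7` that has a path decomposition with bags of size at most `k + 1` (pathwidth at most `k`)
has a 2-colouring in which every monochromatic vertex set inducing a connected subgraph has at
most `c` vertices. -/
theorem Pool.Agent.Results.MP_de06d2_co.APathwidthGirth7.result :
    ∀ k : ℕ, ∃ c : ℕ, ∀ (V : Type) [Fintype V] (G : SimpleGraph V),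
      (7 : ℕ∞) ≤ G.egirth →
      (∃ n : ℕ, ∃ B : Fin n → Finset V,
        (∀ i, (B i).card ≤ k + 1) ∧
        (∀ v : V, ∃ i, v ∈ B i) ∧
        (∀ u v : V, G.Adj u v → ∃ i, u ∈ B i ∧ v ∈ B i) ∧
        (∀ (v : V) (i j l : Fin n), i ≤ j → j ≤ l → v ∈ B i → v ∈ B l → v ∈ B j)) →
      ∃ f : V → Fin 2, ∀ s : Finset V, (∀ x ∈ s, ∀ y ∈ s, f x = f y) →
        (G.induce (s : Set V)).Connected → s.card ≤ c := by
  refine fun k => ⟨Pool.Agent.H572Z.Cl.cst (k + 1), ?_⟩
  rintro V _ G hG ⟨n, B, hb, hv, he, hc⟩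
  exact Pool.Agent.H572Z.Cl.main_path G (Pool.Agent.H572Z.Cl.noShort_of_egirth G hG)
    B (k + 1) hb hv he hc
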